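import Mathlib

/-!
# Equidistribution of Galois orbits of special points
-/

set_option autoImplicit false

open Filter MeasureTheory

namespace Pool.Agent.X264.EQ

universe u

/-- A class of connected components `S` of Shimura varieties: the space `Pt S = S(ℂ)`, the invariant
probability measure, special points, special subvarieties, Galois orbits of special points, products,
and finite covers (given by smaller level subgroups). -/
structure Sys where
  Va : Type u
  Pt : Va → Type u
  [top : ∀ S, TopologicalSpace (Pt S)]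
  [meas : ∀ S, MeasurableSpace (Pt S)]
  [borel : ∀ S, BorelSpace (Pt S)]
  μ : ∀ S, Measure (Pt S)
  [prob : ∀ S, IsProbabilityMeasure (μ S)]
  special : ∀ S, Pt S → Prop
  sub : ∀ S, Set (Pt S) → Prop
  orb : ∀ S, Pt S → Finset (Pt S)
  prod : Va → Va → Va
  cover : Va → Va → Prop

attribute [instance] Sys.top Sys.meas Sys.borel Sys.prob

namespace Sys

variable (T : Sys.{u})

/-- the average of `f` over the Galois orbit of `x` -/
noncomputable def avg (S : T.Va) (x : T.Pt S) (f : T.Pt S → ℝ) : ℝ :=
  (∑ y ∈ T.orb S x, f y) / (T.orb S x).card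

/-- the integral over `S` -/
noncomputable def int (S : T.Va) (f : T.Pt S → ℝ) : ℝ := ∫ y, f y ∂T.μ S

/-- continuous functions with compact support -/
def IsTest (S : T.Va) (f : T.Pt S → ℝ) : Prop := Continuous f ∧ HasCompactSupport f

/-- a proper special subvariety -/
def IsProper (S : T.Va) (Z : Set (T.Pt S)) : Prop := T.sub S Z ∧ ∃ x, x ∉ Z

/-- Each proper special subvariety contains only finitely many `x n`. -/
def Generic (S : T.Va) (x : ℕ → T.Pt S) : Prop :=
  (∀ n, T.special S (x n)) ∧ ∀ Z, T.IsProper S Z → ∃ N, ∀ n, N ≤ n → x n ∉ Z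

/-- The averages over the Galois orbits converge to the integral. -/
def Converges (S : T.Va) (x : ℕ → T.Pt S) (f : T.Pt S → ℝ) : Prop :=
  Tendsto (fun n => T.avg S (x n) f) atTop (nhds (T.int S f))

/-- Q1 for `S`. -/
def Equidistribution (S : T.Va) : Prop :=
  ∀ x, T.Generic S x → ∀ f, T.IsTest S f → T.Converges S x f

/-- `π : V → S` is continuous and maps the invariant measure to the invariant measure. -/
def IsMap (V S : T.Va) (π : T.Pt V → T.Pt S) : Prop :=
  Continuous π ∧ ∀ f, Continuous f → T.int V (fun v => f (π v)) = T.int S f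

/-- The Galois group of the field of definition of `V` has finite index in that of `S`, with coset
representatives `σ j`: the average over the orbit of `x` is the mean of the averages over the orbits
of points `v j` of `V` with `π (v j) = σ j x`. -/
def IsGalois (V S : T.Va) (π : T.Pt V → T.Pt S) (J : ℕ) (σ : Fin (J + 1) → T.Pt S → T.Pt S) : Prop :=
  (∀ x f (v : Fin (J + 1) → T.Pt V), T.special S x → (∀ j, T.special V (v j)) →
    (∀ j, π (v j) = σ j x) → T.avg S x f = (∑ j, T.avg V (v j) fun w => f (π w)) / (J + 1)) ∧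
  (∀ j x, T.special S x → T.special S (σ j x)) ∧
  ∀ j Z, T.IsProper S Z → ∃ Z', T.IsProper S Z' ∧ ∀ x, T.special S x → σ j x ∈ Z → x ∈ Z'

/-- There are countably many special subvarieties. -/
def HasCountable : Prop := ∀ S, ∃ Z : ℕ → Set (T.Pt S), ∀ Y, T.sub S Y → ∃ n, Z n = Y

/-- `S(ℂ)` is `σ`-compact: cutoff functions. -/
def HasCutoffs : Prop :=
  ∀ (S : T.Va) (ε : ℝ), 0 < ε → ∃ h, T.IsTest S h ∧ (∀ x, 0 ≤ h x ∧ h x ≤ 1) ∧ 1 - ε < T.int S h

/-- The Galois orbit of `x` contains `x`. -/
def HasOrbits : Prop := ∀ S x, T.special S x → x ∈ T.orb S x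

/-- A special point `x` of `S` has special points over it outside finitely many special subvarieties
none of which contains the fibre over `x` (density of special points). -/
def IsDense (V S : T.Va) (π : T.Pt V → T.Pt S) : Prop :=
  ∀ (x : T.Pt S) (n : ℕ) (Z : ℕ → Set (T.Pt V)), T.special S x →
    (∀ k, k < n → T.sub V (Z k) → ∃ v, π v = x ∧ v ∉ Z k) →
      ∃ v, T.special V v ∧ π v = x ∧ ∀ k, k < n → T.sub V (Z k) → v ∉ Z k

/-- The fibres contained in a proper special subvariety of `V` lie over finitely many proper special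
subvarieties of `S` (intersections of special subvarieties). -/
def IsFibral (V S : T.Va) (π : T.Pt V → T.Pt S) : Prop :=
  ∀ Z, T.IsProper V Z → ∃ (m : ℕ) (Y : ℕ → Set (T.Pt S)), (∀ k, k < m → T.IsProper S (Y k)) ∧
    ∀ x, (∀ v, π v = x → v ∈ Z) → ∃ k, k < m ∧ x ∈ Y k

/-- Products `S × T → S`. -/
def HasProducts : Prop :=
  ∀ S R, ∃ (π : T.Pt (T.prod S R) → T.Pt S) (J : ℕ) (σ : Fin (J + 1) → T.Pt S → T.Pt S),
    T.IsMap _ S π ∧ T.IsGalois _ S π J σ ∧ T.IsDense _ S π ∧ T.IsFibral _ S π

/-- Finite covers: special points lift, the image of a proper special subvariety is contained in a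
proper special subvariety. -/
def HasCovers : Prop :=
  ∀ V S, T.cover V S → ∃ (π : T.Pt V → T.Pt S) (J : ℕ) (σ : Fin (J + 1) → T.Pt S → T.Pt S),
    T.IsMap V S π ∧ T.IsGalois V S π J σ ∧ (∀ x, T.special S x → ∃ v, T.special V v ∧ π v = x) ∧
      ∀ Z, T.IsProper V Z → ∃ Y, T.IsProper S Y ∧ ∀ v ∈ Z, π v ∈ Y

/-- The properties which are used. -/
structure IsKnown : Prop where
  countable : T.HasCountable
  cutoffs : T.HasCutoffs
  orbits : T.HasOrbits
  products : T.HasProducts
  covers : T.HasCovers

/-- The class `C` is cofinal: for every `S` some finite cover of some product `S × R` is in `C`. -/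
def IsCofinal (C : T.Va → Prop) : Prop :=
  ∀ S, ∃ R V, T.cover V (T.prod S R) ∧ C V

end Sys

end Pool.Agent.X264.EQ
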