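import Pool.Agent.X264.EQ.Defs

/-!
# Equidistribution: passage to quotients
-/

set_option autoImplicit false

open Filter MeasureTheory

namespace Pool.Agent.X264.EQ

universe u

namespace Sys

variable {T : Sys.{u}}

lemma avg_bound {V : T.Va} {x : T.Pt V} (hx : x ∈ T.orb V x) {F h : T.Pt V → ℝ} {C : ℝ}
    (hF : ∀ v, |F v| ≤ C) (hh : ∀ v, 0 ≤ h v ∧ h v ≤ 1) :
    |T.avg V x F - T.avg V x (fun v => F v * h v)| ≤ C * (1 - T.avg V x h) := by
  have hc : (0 : ℝ) < (T.orb V x).card := by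
    exact_mod_cast Finset.card_pos.2 ⟨x, hx⟩
  have h1 : T.avg V x F - T.avg V x (fun v => F v * h v)
      = (∑ y ∈ T.orb V x, F y * (1 - h y)) / (T.orb V x).card := by
    unfold avg
    rw [← sub_div, ← Finset.sum_sub_distrib]
    congr 1
    exact Finset.sum_congr rfl fun y _ => by ring
  have h2 : C * (1 - T.avg V x h) = (∑ y ∈ T.orb V x, C * (1 - h y)) / (T.orb V x).card := by
    unfold avg
    rw [← Finset.mul_sum, Finset.sum_sub_distrib, Finset.sum_const, nsmul_eq_mul, mul_one]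
    field_simp
  rw [h1, h2, abs_div, abs_of_pos hc]
  apply div_le_div_of_nonneg_right _ hc.le
  refine (Finset.abs_sum_le_sum_abs _ _).trans (Finset.sum_le_sum fun y _ => ?_)
  rw [abs_mul, abs_of_nonneg (sub_nonneg.2 (hh y).2)]
  exact mul_le_mul_of_nonneg_right (hF y) (sub_nonneg.2 (hh y).2)

lemma int_bound {V : T.Va} {F h : T.Pt V → ℝ} {C : ℝ} (hFc : Continuous F) (hhc : Continuous h)
    (hF : ∀ v, |F v| ≤ C) (hh : ∀ v, 0 ≤ h v ∧ h v ≤ 1) :
    |T.int V F - T.int V (fun v => F v * h v)| ≤ C * (1 - T.int V h) := by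
  have iF : Integrable F (T.μ V) :=
    Integrable.of_bound hFc.aestronglyMeasurable C (ae_of_all _ fun v => by
      rw [Real.norm_eq_abs]; exact hF v)
  have ih : Integrable h (T.μ V) :=
    Integrable.of_bound hhc.aestronglyMeasurable 1 (ae_of_all _ fun v => by
      rw [Real.norm_eq_abs, abs_of_nonneg (hh v).1]; exact (hh v).2)
  have iFh : Integrable (fun v => F v * h v) (T.μ V) :=
    Integrable.of_bound (hFc.mul hhc).aestronglyMeasurable C (ae_of_all _ fun v => by
      rw [Real.norm_eq_abs, abs_mul, abs_of_nonneg (hh v).1]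
      exact (mul_le_of_le_one_right (abs_nonneg _) (hh v).2).trans (hF v))
  have h1 : T.int V F - T.int V (fun v => F v * h v) = ∫ v, F v * (1 - h v) ∂T.μ V := by
    unfold int
    rw [← integral_sub iF iFh]
    congr 1
    funext v
    ring
  have h2 : C * (1 - T.int V h) = ∫ v, C * (1 - h v) ∂T.μ V := by
    unfold int
    rw [integral_const_mul, integral_sub (integrable_const _) ih]
    simp
  rw [h1, h2]
  refine (abs_integral_le_integral_abs).trans (integral_mono ?_ ?_ fun v => ?_)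
  · have : Integrable (fun v => F v * (1 - h v)) (T.μ V) := by
      have h3 := iF.sub iFh
      refine h3.congr (ae_of_all _ fun v => ?_)
      simp only [Pi.sub_apply]
      ring
    exact this.abs
  · exact ((integrable_const (1 : ℝ)).sub ih).const_mul C
  · simp only
    rw [abs_mul, abs_of_nonneg (sub_nonneg.2 (hh v).2)]
    exact mul_le_mul_of_nonneg_right (hF v) (sub_nonneg.2 (hh v).2)

/-- convergence also for bounded continuous functions -/
lemma converges_bounded (hT : T.IsKnown) {V : T.Va} (hV : T.Equidistribution V) {v : ℕ → T.Pt V}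
    (hv : T.Generic V v) {F : T.Pt V → ℝ} (hFc : Continuous F) {C : ℝ} (hF : ∀ w, |F w| ≤ C) :
    T.Converges V v F := by
  have hC : 0 ≤ C := (abs_nonneg _).trans (hF (v 0))
  rw [Converges, Metric.tendsto_atTop]
  intro ε hε
  have hδ : 0 < ε / (4 * (C + 1)) := by positivity
  obtain ⟨h, hh, hh1, hh2⟩ := hT.cutoffs V _ hδ
  have hFh : T.IsTest V fun w => F w * h w := ⟨hFc.mul hh.1, hh.2.mul_left⟩
  have c1 := hV v hv _ hFh
  have c2 := hV v hv _ hh
  rw [Converges, Metric.tendsto_atTop] at c1 c2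
  obtain ⟨N1, hN1⟩ := c1 (ε / 4) (by positivity)
  obtain ⟨N2, hN2⟩ := c2 (ε / (4 * (C + 1))) hδ
  refine ⟨max N1 N2, fun n hn => ?_⟩
  have b1 := hN1 n (le_trans (le_max_left _ _) hn)
  have b2 := hN2 n (le_trans (le_max_right _ _) hn)
  rw [Real.dist_eq] at b1 b2 ⊢
  have b3 := avg_bound (hT.orbits V _ (hv.1 n)) hF hh1
  have b4 := int_bound hFc hh.1 hF hh1
  have b5 := (abs_lt.1 b2).1
  have k1 : C * (1 - T.avg V (v n) h) ≤ C * (2 * (ε / (4 * (C + 1)))) :=
    mul_le_mul_of_nonneg_left (by linarith) hC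
  have k2 : C * (1 - T.int V h) ≤ C * (ε / (4 * (C + 1))) :=
    mul_le_mul_of_nonneg_left (by linarith) hC
  have k3 : C * (ε / (4 * (C + 1))) ≤ ε / 4 := by
    rw [← mul_div_assoc, div_le_div_iff₀ (by positivity) (by positivity)]
    nlinarith
  have k4 : C * (2 * (ε / (4 * (C + 1)))) ≤ ε / 2 := by linarith
  have e1 := abs_le.1 b3
  have e2 := abs_le.1 b4
  have e3 := abs_lt.1 b1
  rw [abs_lt]
  constructor <;> linarith [e1.1, e1.2, e2.1, e2.2, e3.1, e3.2]

lemma generic_sigma {V S : T.Va} {π : T.Pt V → T.Pt S} {J : ℕ}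
    {σ : Fin (J + 1) → T.Pt S → T.Pt S} (hG : T.IsGalois V S π J σ) {x : ℕ → T.Pt S}
    (hx : T.Generic S x) (j : Fin (J + 1)) : T.Generic S fun n => σ j (x n) := by
  refine ⟨fun n => hG.2.1 j _ (hx.1 n), fun Z hZ => ?_⟩
  obtain ⟨Z', hZ', h⟩ := hG.2.2 j Z hZ
  obtain ⟨N, hN⟩ := hx.2 Z' hZ'
  exact ⟨N, fun n hn hc => hN n hn (h _ (hx.1 n) hc)⟩

/-- transfer, given liftings of generic sequences -/
theorem transfer (hT : T.IsKnown) {V S : T.Va} {π : T.Pt V → T.Pt S} {J : ℕ}
    {σ : Fin (J + 1) → T.Pt S → T.Pt S} (hM : T.IsMap V S π) (hG : T.IsGalois V S π J σ)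
    (hL : ∀ x, T.Generic S x → ∃ v, T.Generic V v ∧ ∀ n, π (v n) = x n)
    (hV : T.Equidistribution V) : T.Equidistribution S := by
  intro x hx f hf
  obtain ⟨C, hC⟩ := hf.1.bounded_above_of_compact_support hf.2
  choose v hv hπ using fun j => hL _ (generic_sigma hG hx j)
  have h1 : ∀ j, Tendsto (fun n => T.avg V (v j n) fun w => f (π w)) atTop
      (nhds (T.int S f)) := by
    intro j
    have h2 := converges_bounded hT hV (hv j) (hf.1.comp hM.1) (C := C) (fun w => hC _)
    have h3 := hM.2 f hf.1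
    unfold Converges at h2
    change Tendsto _ _ (nhds (T.int V fun w => f (π w))) at h2
    rw [h3] at h2
    exact h2
  have h4 : Tendsto (fun n => (∑ j : Fin (J + 1), T.avg V (v j n) fun w => f (π w)) / ((J : ℝ) + 1))
      atTop (nhds ((∑ _j : Fin (J + 1), T.int S f) / ((J : ℝ) + 1))) :=
    (tendsto_finsetSum _ fun j _ => h1 j).div_const _
  have h5 : (∑ _j : Fin (J + 1), T.int S f) / ((J : ℝ) + 1) = T.int S f := by
    rw [Finset.sum_const, Finset.card_univ, Fintype.card_fin, nsmul_eq_mul]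
    have : ((J : ℝ) + 1) ≠ 0 := by positivity
    push_cast
    field_simp
  rw [h5] at h4
  unfold Converges
  refine h4.congr fun n => ?_
  exact (hG.1 (x n) f (fun j => v j n) (hx.1 n) (fun j => (hv j).1 n) fun j => hπ j n).symm

/-- liftings of generic sequences to products -/
theorem lift_prod (hT : T.IsKnown) {V S : T.Va} {π : T.Pt V → T.Pt S} (hD : T.IsDense V S π)
    (hF : T.IsFibral V S π) {x : ℕ → T.Pt S} (hx : T.Generic S x) :
    ∃ v, T.Generic V v ∧ ∀ n, π (v n) = x n := by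
  classical
  obtain ⟨Z, hZ⟩ := hT.countable V
  have h1 : ∀ n, ∃ v, T.special V v ∧ π v = x n ∧
      ∀ k, k < n → T.sub V (Z k) → (∃ w, π w = x n ∧ w ∉ Z k) → v ∉ Z k := by
    intro n
    obtain ⟨v₀, -, hv₀, -⟩ := hD (x n) 0 Z (hx.1 n) (fun k hk => absurd hk (Nat.not_lt_zero k))
    obtain ⟨v, hv1, hv2, hv3⟩ := hD (x n) n
      (fun k => if (∃ w, π w = x n ∧ w ∉ Z k) then Z k else ∅) (hx.1 n) (by
        intro k _ _
        by_cases hk : ∃ w, π w = x n ∧ w ∉ Z k
        · obtain ⟨w, hw⟩ := hk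
          refine ⟨w, hw.1, ?_⟩
          rw [if_pos ⟨w, hw⟩]
          exact hw.2
        · refine ⟨v₀, hv₀, ?_⟩
          rw [if_neg hk]
          exact Set.notMem_empty _)
    refine ⟨v, hv1, hv2, fun k hk hs hw => ?_⟩
    have := hv3 k hk
    rw [if_pos hw] at this
    exact this hs
  choose v hv1 hv2 hv3 using h1
  refine ⟨v, ⟨hv1, fun Y hY => ?_⟩, hv2⟩
  obtain ⟨m, hm⟩ := hZ Y hY.1
  obtain ⟨l, P, hP, hP'⟩ := hF Y hY
  -- a common bound for the finitely many `P k`
  have h2 : ∃ N, ∀ k, k < l → ∀ n, N ≤ n → x n ∉ P k := by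
    clear hP'
    induction l with
    | zero => exact ⟨0, fun k hk => absurd hk (Nat.not_lt_zero k)⟩
    | succ l ih =>
      obtain ⟨N, hN⟩ := ih (fun k hk => hP k (Nat.lt_succ_of_lt hk))
      obtain ⟨N', hN'⟩ := hx.2 (P l) (hP l (Nat.lt_succ_self l))
      refine ⟨max N N', fun k hk n hn => ?_⟩
      rcases Nat.lt_succ_iff_lt_or_eq.1 hk with h | h
      · exact hN k h n (le_trans (le_max_left _ _) hn)
      · subst h
        exact hN' n (le_trans (le_max_right _ _) hn)
  obtain ⟨N, hN⟩ := h2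
  refine ⟨max N (m + 1), fun n hn hc => ?_⟩
  have hmn : m < n := lt_of_lt_of_le (Nat.lt_succ_self m) (le_trans (le_max_right _ _) hn)
  have h3 : ∀ w, π w = x n → w ∈ Y := by
    intro w hw
    by_contra hcon
    have h4 := hv3 n m hmn (by rw [hm]; exact hY.1) ⟨w, hw, by rw [hm]; exact hcon⟩
    rw [hm] at h4
    exact h4 hc
  obtain ⟨k, hk, hxk⟩ := hP' (x n) h3
  exact hN k hk n (le_trans (le_max_left _ _) hn) hxk

/-- products -/
theorem of_prod (hT : T.IsKnown) (S R : T.Va) (h : T.Equidistribution (T.prod S R)) :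
    T.Equidistribution S := by
  obtain ⟨π, J, σ, hM, hG, hD, hF⟩ := hT.products S R
  exact transfer hT hM hG (fun x hx => lift_prod hT hD hF hx) h

/-- covers -/
theorem of_cover (hT : T.IsKnown) {V S : T.Va} (hc : T.cover V S) (h : T.Equidistribution V) :
    T.Equidistribution S := by
  obtain ⟨π, J, σ, hM, hG, hL, hI⟩ := hT.covers V S hc
  refine transfer hT hM hG (fun x hx => ?_) h
  choose v hv1 hv2 using fun n => hL (x n) (hx.1 n)
  refine ⟨v, ⟨hv1, fun Z hZ => ?_⟩, hv2⟩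
  obtain ⟨Y, hY, hYZ⟩ := hI Z hZ
  obtain ⟨N, hN⟩ := hx.2 Y hY
  exact ⟨N, fun n hn hc' => hN n hn (by rw [← hv2 n]; exact hYZ _ hc')⟩

/-- a cofinal class suffices -/
theorem main (hT : T.IsKnown) (C : T.Va → Prop) (hC : T.IsCofinal C) :
    (∀ S, T.Equidistribution S) ↔ ∀ S, C S → T.Equidistribution S := by
  refine ⟨fun h S _ => h S, fun h S => ?_⟩
  obtain ⟨R, V, hc, hV⟩ := hC S
  exact of_prod hT S R (of_cover hT hc (h V hV))

end Sys

end Pool.Agent.X264.EQ
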